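import Mathlib
import Pool.Agent.R789.HorseModel

/-!
# The Smale horseshoe fixes a vertex of the ray graph

Problem MP_f98b29_gt, Q1 (answer: not loxodromic, the negated form holds).
-/

namespace Pool.Agent.Results.MP_f98b29_gt.HorseshoeElliptic

open Set Filter Topology R789.Horse

/-- Let `f` be any homeomorphism of the plane whose restriction to the unit square `Q` is the
horseshoe folding with strips `H₀, H₁, V₀, V₁` (`Strips.fold`), and let `Λ = ⋂ fⁿ(Q)`.
Then `f` fixes a vertex `v` of the ray graph of `Λ`.  Hence all orbits are bounded and the stable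
translation length of `f` on the ray graph, computed at any vertex `w` (of the component of `v`),
is `0`: `f` acts elliptically, not loxodromically. -/
theorem result (D : Strips) (f : Pl ≃ₜ Pl) (hf : ∀ z ∈ Q, f z = D.fold z) :
    ∃ v : RayClass (Lam f), act f (lam_image f) v = v ∧
      (∀ (w : RayClass (Lam f)) (n : ℕ),
        (rayGraph (Lam f)).edist w ((act f (lam_image f))^[n] w) ≤
          2 * (rayGraph (Lam f)).edist v w) ∧
      ∀ w : RayClass (Lam f), (rayGraph (Lam f)).Reachable v w →
        Tendsto (fun n : ℕ =>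
          ((rayGraph (Lam f)).dist w ((act f (lam_image f))^[n] w) : ℝ) / n) atTop (𝓝 0) := by
  have hR : IsRay (Lam f) D.ray := Strips.isRay_ray hf
  have hagree : ∀ z ∈ Q, f z = D.Fhomeo z := fun z hz => by
    rw [hf z hz, Strips.Fhomeo_apply, D.F_eq_fold hz]
  have hC : Lam f ⊆ D.Fhomeo '' Q := by
    intro z hz
    rw [← lam_image f] at hz
    obtain ⟨w, hw, rfl⟩ := hz
    exact ⟨w, lam_subset f hw, (hagree w (lam_subset f hw)).symm⟩
  have hiso : Iso (Lam f) (D.Fhomeo '' D.ray) (f '' D.ray) :=
    iso_of_eqOn D.Fhomeo f hagree (Lam f) hC D.ray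
  rw [D.F_ray] at hiso
  let r : Ray (Lam f) := ⟨D.ray, hR⟩
  have hfix : act f (lam_image f) (rayClass r) = rayClass r :=
    Quotient.sound (s := raySetoid (Lam f)) (a := rayMap f (lam_image f) r) (b := r) hiso.symm
  exact ⟨rayClass r, hfix, fun w n => edist_orbit_le f _ _ w hfix n,
    fun w hw => translation_zero f _ _ w hfix hw⟩

end Pool.Agent.Results.MP_f98b29_gt.HorseshoeElliptic
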